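import Mathlib

set_option autoImplicit false

namespace Pool.Agent.Helper40.KS

/-- `X` contains no two cyclically consecutive elements of `{0, …, n - 1}` -/
def Stable {n : ℕ} (X : Finset (Fin n)) : Prop := ∀ i ∈ X, ∀ j ∈ X, ((i : ℕ) + 1) % n ≠ (j : ℕ)

/-- The Schrijver graph `SG(n, m)`: its vertices are the `m`-element subsets of `{0, …, n - 1}` without
two cyclically consecutive elements, and distinct disjoint sets are adjacent. -/
def schrijverGraph (n m : ℕ) : SimpleGraph {X : Finset (Fin n) // X.card = m ∧ Stable X} where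
  Adj X Y := X ≠ Y ∧ Disjoint X.1 Y.1
  symm := ⟨fun _ _ h => ⟨h.1.symm, h.2.symm⟩⟩
  loopless := ⟨fun _ h => h.1 rfl⟩

end Pool.Agent.Helper40.KS
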