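import Mathlib

set_option autoImplicit false

/-! The octahedral Tucker lemma, by Fan's parity argument. -/

namespace Pool.Agent.Helper40.KS

open Finset
open scoped Classical

section Local

variable {ι : Type} [Fintype ι] [DecidableEq ι]

/-- the signs `ε` alternate along the order given by the keys `K`, starting with `b` -/
def PA (K : ι → ℕ) (ε : ι → Bool) (b : Bool) (J : Finset ι) : Prop :=
  ∀ j ∈ J, ε j = xor b (Nat.bodd (J.filter fun i => K i < K j).card)

noncomputable def ind (P : Prop) : ZMod 2 := if P then 1 else 0

lemma PA_insert (K : ι → ℕ) (ε : ι → Bool) (b : Bool) (J : Finset ι) (a : ι)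
    (ha : ∀ x ∈ J, K a < K x) :
    PA K ε b (insert a J) ↔ ε a = b ∧ PA K ε (!b) J := by
  have haJ : a ∉ J := fun h => lt_irrefl _ (ha a h)
  have h1 : ((insert a J).filter fun i => K i < K a) = ∅ := by
    rw [Finset.filter_eq_empty_iff]
    intro x hx
    rw [Finset.mem_insert] at hx
    rcases hx with rfl | hx
    · exact lt_irrefl _
    · exact not_lt.2 (ha x hx).le
  have h2 : ∀ x ∈ J, ((insert a J).filter fun i => K i < K x).card
      = (J.filter fun i => K i < K x).card + 1 := by
    intro x hx
    rw [Finset.filter_insert, if_pos (ha x hx), Finset.card_insert_of_notMem]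
    intro h
    exact haJ (Finset.mem_filter.1 h).1
  unfold PA
  constructor
  · intro h
    refine ⟨?_, fun x hx => ?_⟩
    · have := h a (Finset.mem_insert_self _ _)
      rw [h1] at this
      simpa using this
    · have := h x (Finset.mem_insert_of_mem hx)
      rw [h2 x hx, Nat.bodd_succ] at this
      rw [this]
      cases b <;> cases Nat.bodd (J.filter fun i => K i < K x).card <;> rfl
  · rintro ⟨h3, h4⟩ x hx
    rw [Finset.mem_insert] at hx
    rcases hx with rfl | hx
    · rw [h1]; simpa using h3
    · rw [h2 x hx, Nat.bodd_succ, h4 x hx]
      cases b <;> cases Nat.bodd (J.filter fun i => K i < K x).card <;> rfl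

lemma zmod2_add_self (x : ZMod 2) : x + x = 0 := CharTwo.add_self_eq_zero x

lemma local_count (K : ι → ℕ) (hK : Function.Injective K) (ε : ι → Bool) :
    ∀ J : Finset ι, J.Nonempty → ∀ b : Bool,
      ∑ i ∈ J, ind (PA K ε b (J.erase i)) = ind (PA K ε true J) + ind (PA K ε false J) := by
  intro J
  induction J using Finset.induction_on_min_value (f := K) with
  | empty => intro h; exact absurd h (by simp)
  | insert a J haJ hmin ih =>
    intro _ b
    have hlt : ∀ x ∈ J, K a < K x := by
      intro x hx
      refine lt_of_le_of_ne (hmin x hx) fun h => ?_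
      rw [hK h] at haJ
      exact haJ hx
    rw [Finset.sum_insert haJ, Finset.erase_insert haJ]
    have h1 : ∀ i ∈ J, ind (PA K ε b ((insert a J).erase i))
        = if ε a = b then ind (PA K ε (!b) (J.erase i)) else 0 := by
      intro i hi
      have hai : a ≠ i := fun h => haJ (h ▸ hi)
      rw [Finset.erase_insert_of_ne hai]
      unfold ind
      rw [PA_insert K ε b (J.erase i) a fun x hx => hlt x (Finset.mem_of_mem_erase hx)]
      by_cases h : ε a = b <;> simp [h]
    rw [Finset.sum_congr rfl h1]
    have e1 : ind (PA K ε true (insert a J)) = if ε a = true then ind (PA K ε false J) else 0 := by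
      unfold ind
      rw [PA_insert K ε true J a hlt]
      by_cases h : ε a = true <;> simp [h]
    have e2 : ind (PA K ε false (insert a J)) = if ε a = false then ind (PA K ε true J) else 0 := by
      unfold ind
      rw [PA_insert K ε false J a hlt]
      by_cases h : ε a = false <;> simp [h]
    rw [e1, e2]
    by_cases hne : J.Nonempty
    · have ih' := ih hne (!b)
      rw [← Finset.sum_filter_add_sum_filter_not J (fun _ => ε a = b)]
      cases hb : b <;> cases hε : ε a <;> simp only [hb, Bool.not_true, Bool.not_false] at ih' ⊢ <;>
        simp [ih']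
      · rw [add_comm (ind (PA K ε true J)), ← add_assoc, zmod2_add_self, zero_add]
      · rw [← add_assoc, zmod2_add_self, zero_add]
    · rw [Finset.not_nonempty_iff_eq_empty] at hne
      subst hne
      have h3 : ∀ b', ind (PA K ε b' (∅ : Finset ι)) = 1 := by
        intro b'
        unfold ind PA
        simp
      rw [h3, h3, h3]
      cases ε a <;> simp

lemma PA_map {κ : Type} [Fintype κ] [DecidableEq κ] (f : κ ↪ ι) (K : ι → ℕ) (ε : ι → Bool) (b : Bool)
    (J : Finset κ) : PA K ε b (J.map f) ↔ PA (K ∘ f) (ε ∘ f) b J := by
  have h : ∀ j : κ, ((J.map f).filter fun i => K i < K (f j)).card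
      = (J.filter fun i => (K ∘ f) i < (K ∘ f) j).card := by
    intro j
    rw [Finset.filter_map, Finset.card_map]
    rfl
  unfold PA
  constructor
  · intro h1 j hj
    have := h1 (f j) (Finset.mem_map_of_mem f hj)
    rw [h j] at this
    exact this
  · intro h1 i hi
    rw [Finset.mem_map] at hi
    obtain ⟨j, hj, rfl⟩ := hi
    rw [h j]
    exact h1 j hj

lemma PA_congr {K K' : ι → ℕ} {ε ε' : ι → Bool} (b : Bool) {J : Finset ι}
    (hK : ∀ j ∈ J, K j = K' j) (hε : ∀ j ∈ J, ε j = ε' j) : PA K ε b J ↔ PA K' ε' b J := by
  have h : ∀ j ∈ J, (J.filter fun i => K i < K j) = J.filter fun i => K' i < K' j := by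
    intro j hj
    apply Finset.filter_congr
    intro i hi
    rw [hK i hi, hK j hj]
  unfold PA
  constructor
  · intro h1 j hj
    rw [← hε j hj, ← h j hj]
    exact h1 j hj
  · intro h1 j hj
    rw [hε j hj, h j hj]
    exact h1 j hj

lemma PA_not (K : ι → ℕ) (ε : ι → Bool) (b : Bool) (J : Finset ι) :
    PA K (fun j => !ε j) b J ↔ PA K ε (!b) J := by
  unfold PA
  constructor
  · intro h j hj
    have h1 : (!ε j) = xor b (Nat.bodd (J.filter fun i => K i < K j).card) := h j hj
    have h2 : ε j = !(xor b (Nat.bodd (J.filter fun i => K i < K j).card)) := by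
      rw [← h1, Bool.not_not]
    rw [h2]
    cases b <;> cases Nat.bodd (J.filter fun i => K i < K j).card <;> rfl
  · intro h j hj
    show (!ε j) = xor b (Nat.bodd (J.filter fun i => K i < K j).card)
    rw [h j hj]
    cases b <;> cases Nat.bodd (J.filter fun i => K i < K j).card <;> rfl

end Local

section Global

/-- the `j`-th vertex of the facet `(τ, s)` -/
def vx {n : ℕ} (τ : Equiv.Perm (Fin n)) (s : Fin n → Bool) (j : Fin n) : Fin n → SignType :=
  fun c => if j ≤ τ c then (if s c then 1 else -1) else 0

/-- number of nonzero coordinates -/
noncomputable def sz {n : ℕ} (x : Fin n → SignType) : ℕ := (Finset.univ.filter fun c => x c ≠ 0).card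

lemma sign_ne_zero (b : Bool) : (if b then (1 : SignType) else -1) ≠ 0 := by cases b <;> decide

lemma vx_ne_zero {n : ℕ} (τ : Equiv.Perm (Fin n)) (s : Fin n → Bool) (j c : Fin n) :
    vx τ s j c ≠ 0 ↔ j ≤ τ c := by
  unfold vx
  by_cases h : j ≤ τ c
  · simp only [h, if_true, iff_true]
    exact sign_ne_zero _
  · simp [h]

lemma sz_vx {n : ℕ} (τ : Equiv.Perm (Fin n)) (s : Fin n → Bool) (j : Fin n) :
    sz (vx τ s j) = n - j := by
  unfold sz
  have h1 : (Finset.univ.filter fun c => vx τ s j c ≠ 0) = (Finset.Ici j).map τ.symm.toEmbedding := by
    ext c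
    simp only [Finset.mem_filter, Finset.mem_univ, true_and, Finset.mem_map, Finset.mem_Ici,
      Equiv.coe_toEmbedding]
    rw [vx_ne_zero]
    constructor
    · intro h
      exact ⟨τ c, h, by simp⟩
    · rintro ⟨i, hi, rfl⟩
      simpa using hi
  rw [h1, Finset.card_map, Fin.card_Ici]

lemma vx_not {n : ℕ} (τ : Equiv.Perm (Fin n)) (s : Fin n → Bool) (j : Fin n) :
    vx τ (fun c => !s c) j = -vx τ s j := by
  funext c
  unfold vx
  simp only [Pi.neg_apply]
  by_cases h : j ≤ τ c
  · rcases Bool.eq_false_or_eq_true (s c) with h' | h' <;> simp [h, h']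
  · simp [h]

/-- **Fan's lemma** (octahedral form): an odd number of facets is alternating. -/
theorem fan : ∀ (n : ℕ) (κ : (Fin n → SignType) → ℕ) (sgn : (Fin n → SignType) → Bool),
    (∀ x, κ (-x) = κ x) → (∀ x, x ≠ 0 → sgn (-x) = !sgn x) → (∀ x y, κ x = κ y → sz x = sz y) →
    ∀ b, ∑ p : Equiv.Perm (Fin n) × (Fin n → Bool),
      ind (PA (fun j => κ (vx p.1 p.2 j)) (fun j => sgn (vx p.1 p.2 j)) b Finset.univ) = 1 := by
  intro n
  induction n with
  | zero =>
    intro κ sgn _ _ _ b
    rw [Fintype.sum_eq_single (default, default) (by
      intro p hp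
      exact absurd (Subsingleton.elim _ _) hp)]
    unfold ind PA
    simp
  | succ n ih =>
    intro κ sgn hκ hsgn hsz b
    have hinj : ∀ p : Equiv.Perm (Fin (n + 1)) × (Fin (n + 1) → Bool),
        Function.Injective fun j => κ (vx p.1 p.2 j) := by
      intro p i j hij
      have h1 := hsz _ _ hij
      rw [sz_vx, sz_vx] at h1
      ext
      have := i.2
      have := j.2
      omega
    have hvne : ∀ (p : Equiv.Perm (Fin (n + 1)) × (Fin (n + 1) → Bool)) (j : Fin (n + 1)),
        vx p.1 p.2 j ≠ 0 := by
      intro p j h0
      have h1 : vx p.1 p.2 j (p.1.symm j) = 0 := by rw [h0]; rfl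
      exact absurd h1 ((vx_ne_zero _ _ _ _).2 (by simp))
    set P : Equiv.Perm (Fin (n + 1)) × (Fin (n + 1) → Bool) → Bool → Finset (Fin (n + 1)) → ZMod 2 :=
      fun p b J => ind (PA (fun j => κ (vx p.1 p.2 j)) (fun j => sgn (vx p.1 p.2 j)) b J) with hP
    set Hs : Finset (Equiv.Perm (Fin (n + 1)) × (Fin (n + 1) → Bool)) :=
      Finset.univ.filter fun p => p.2 0 = true with hHs
    -- ridges, by the omitted index
    have hridge : ∀ i : Fin (n + 1), i ≠ 0 → ∑ p ∈ Hs, P p b (Finset.univ.erase i) = 0 := by
      intro i hi
      obtain ⟨i', rfl⟩ := Fin.exists_succ_eq.2 hi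
      apply Finset.sum_involution
        (g := fun p _ => (Equiv.swap i'.castSucc i'.succ * p.1, p.2))
      · intro p hp
        have hsame : ∀ j ∈ (Finset.univ.erase i'.succ : Finset (Fin (n + 1))),
            vx (Equiv.swap i'.castSucc i'.succ * p.1) p.2 j = vx p.1 p.2 j := by
          intro j hj
          have hj' : j ≠ i'.succ := (Finset.mem_erase.1 hj).1
          funext c
          unfold vx
          have : j ≤ (Equiv.swap i'.castSucc i'.succ * p.1) c ↔ j ≤ p.1 c := by
            rw [Equiv.Perm.mul_apply]
            rcases eq_or_ne (p.1 c) i'.castSucc with h | h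
            · rw [h, Equiv.swap_apply_left]
              rw [Fin.ne_iff_vne] at hj'
              simp only [Fin.le_def, Fin.val_succ, Fin.val_castSucc] at hj' ⊢
              omega
            · rcases eq_or_ne (p.1 c) i'.succ with h2 | h2
              · rw [h2, Equiv.swap_apply_right]
                rw [Fin.ne_iff_vne] at hj'
                simp only [Fin.le_def, Fin.val_succ, Fin.val_castSucc] at hj' ⊢
                omega
              · rw [Equiv.swap_apply_of_ne_of_ne h h2]
          simp only [this]
        have : P (Equiv.swap i'.castSucc i'.succ * p.1, p.2) b (Finset.univ.erase i'.succ)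
            = P p b (Finset.univ.erase i'.succ) := by
          simp only [hP]
          unfold ind
          congr 1
          apply propext
          apply PA_congr
          · intro j hj; simp only [hsame j hj]
          · intro j hj; simp only [hsame j hj]
        rw [this]
        exact zmod2_add_self _
      · intro p hp _ heq
        have h1 : Equiv.swap i'.castSucc i'.succ * p.1 = p.1 := congrArg Prod.fst heq
        have h2 : Equiv.swap i'.castSucc i'.succ = 1 := mul_eq_right.1 h1
        rw [Equiv.swap_eq_one_iff] at h2
        exact (Fin.castSucc_lt_succ).ne h2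
      case g_mem =>
        intro p hp
        rw [hHs, Finset.mem_filter] at hp ⊢
        exact ⟨Finset.mem_univ _, hp.2⟩
      case hg₄ =>
        intro p hp
        simp only
        ext1
        · rw [← mul_assoc, Equiv.swap_mul_self, one_mul]
        · rfl
    have hridge0 : ∑ p ∈ Hs, P p b (Finset.univ.erase 0) = 1 := by
      rw [← Finset.sum_filter_add_sum_filter_not Hs (fun p => p.1 0 = 0)]
      have h1 : ∑ p ∈ Hs with ¬ p.1 0 = 0, P p b (Finset.univ.erase 0) = 0 := by
        apply Finset.sum_involution
          (g := fun p _ => (p.1, Function.update p.2 (p.1.symm 0) (!p.2 (p.1.symm 0))))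
        · intro p hp
          have hsame : ∀ j ∈ (Finset.univ.erase 0 : Finset (Fin (n + 1))),
              vx p.1 (Function.update p.2 (p.1.symm 0) (!p.2 (p.1.symm 0))) j = vx p.1 p.2 j := by
            intro j hj
            have hj' : j ≠ 0 := (Finset.mem_erase.1 hj).1
            funext c
            unfold vx
            by_cases hc : c = p.1.symm 0
            · subst hc
              have : ¬ j ≤ p.1 (p.1.symm 0) := by
                rw [Equiv.apply_symm_apply, Fin.le_zero_iff]
                exact hj'
              simp only [this, if_false]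
            · rw [Function.update_of_ne hc]
          have : P (p.1, Function.update p.2 (p.1.symm 0) (!p.2 (p.1.symm 0))) b
              (Finset.univ.erase 0) = P p b (Finset.univ.erase 0) := by
            simp only [hP]
            unfold ind
            congr 1
            apply propext
            apply PA_congr
            · intro j hj; simp only [hsame j hj]
            · intro j hj; simp only [hsame j hj]
          rw [this]
          exact zmod2_add_self _
        · intro p hp _ heq
          have h1 := congrFun (congrArg Prod.snd heq) (p.1.symm 0)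
          simp only [Function.update_self] at h1
          cases h2 : p.2 (p.1.symm 0) <;> rw [h2] at h1 <;> simp at h1
        case g_mem =>
          intro p hp
          rw [Finset.mem_filter, hHs, Finset.mem_filter] at hp ⊢
          refine ⟨⟨Finset.mem_univ _, ?_⟩, hp.2⟩
          have h0 : (0 : Fin (n + 1)) ≠ p.1.symm 0 := by
            intro h
            apply hp.2
            conv_lhs => rw [h]
            simp
          simp only
          rw [Function.update_of_ne h0]
          exact hp.1.2
        case hg₄ =>
          intro p hp
          simp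
      rw [h1, add_zero]
      rw [← ih (fun x => κ (Fin.cons 0 x)) (fun x => sgn (Fin.cons 0 x)) ?_ ?_ ?_ b]
      · symm
        apply Finset.sum_nbij'
          (i := fun p : Equiv.Perm (Fin n) × (Fin n → Bool) =>
            ((Equiv.Perm.decomposeFin.symm (0, p.1), Fin.cons true p.2) :
              Equiv.Perm (Fin (n + 1)) × (Fin (n + 1) → Bool)))
          (j := fun p => ((Equiv.Perm.decomposeFin p.1).2, Fin.tail p.2))
        · intro p _
          rw [Finset.mem_filter, hHs, Finset.mem_filter]
          refine ⟨⟨Finset.mem_univ _, ?_⟩, ?_⟩
          · simp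
          · simp
        · intro p _
          exact Finset.mem_univ _
        · intro p _
          simp
        · intro p hp
          rw [Finset.mem_filter, hHs, Finset.mem_filter] at hp
          obtain ⟨⟨_, h2⟩, h3⟩ := hp
          have h4 : (Equiv.Perm.decomposeFin p.1).1 = 0 := by
            have h5 : Equiv.Perm.decomposeFin.symm (Equiv.Perm.decomposeFin p.1) 0 = 0 := by
              rw [Equiv.symm_apply_apply]; exact h3
            rw [← Prod.mk.eta (p := Equiv.Perm.decomposeFin p.1)] at h5
            rwa [Equiv.Perm.decomposeFin_symm_apply_zero] at h5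
          ext1
          · simp only
            rw [← h4, Prod.mk.eta, Equiv.symm_apply_apply]
          · simp only
            rw [← h2]
            exact Fin.cons_self_tail p.2
        · intro p _
          simp only [hP]
          unfold ind
          congr 1
          apply propext
          have hvx : ∀ j : Fin n, vx (Equiv.Perm.decomposeFin.symm (0, p.1)) (Fin.cons true p.2) j.succ
              = Fin.cons 0 (vx p.1 p.2 j) := by
            intro j
            funext c
            refine Fin.cases ?_ (fun c => ?_) c
            · unfold vx
              rw [Equiv.Perm.decomposeFin_symm_apply_zero,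
                if_neg (by rw [Fin.le_zero_iff]; exact Fin.succ_ne_zero j)]
              rfl
            · unfold vx
              rw [Equiv.Perm.decomposeFin_symm_apply_succ, Fin.cons_succ, Fin.cons_succ]
              simp
          have herase : (Finset.univ.erase 0 : Finset (Fin (n + 1)))
              = (Finset.univ : Finset (Fin n)).map (Fin.succEmb n) := by
            ext j
            simp only [Finset.mem_erase, Finset.mem_univ, and_true, Finset.mem_map, true_and]
            constructor
            · intro hj
              obtain ⟨j', rfl⟩ := Fin.exists_succ_eq.2 hj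
              exact ⟨j', rfl⟩
            · rintro ⟨j', rfl⟩
              exact Fin.succ_ne_zero j'
          rw [herase, PA_map]
          apply PA_congr
          · intro j _
            show κ (Fin.cons 0 (vx p.1 p.2 j)) = κ (vx _ _ j.succ)
            rw [hvx]
          · intro j _
            show sgn (Fin.cons 0 (vx p.1 p.2 j)) = sgn (vx _ _ j.succ)
            rw [hvx]
      · intro x
        have : (Fin.cons 0 (-x) : Fin (n + 1) → SignType) = -Fin.cons 0 x := by
          funext c
          refine Fin.cases ?_ (fun c => ?_) c
          · rfl
          · simp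
        rw [this]
        exact hκ _
      · intro x hx
        have : (Fin.cons 0 (-x) : Fin (n + 1) → SignType) = -Fin.cons 0 x := by
          funext c
          refine Fin.cases ?_ (fun c => ?_) c
          · rfl
          · simp
        rw [this]
        apply hsgn
        intro h0
        apply hx
        funext c
        have := congrFun h0 c.succ
        simpa using this
      · intro x y hxy
        have h := hsz _ _ hxy
        have hs : ∀ x : Fin n → SignType, sz (Fin.cons 0 x : Fin (n + 1) → SignType) = sz x := by
          intro x
          unfold sz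
          rw [Fin.univ_succ, Finset.filter_cons]
          simp only [Fin.cons_zero, ne_eq, not_true_eq_false, if_false]
          rw [Finset.filter_map, Finset.card_map]
          congr 1
        rwa [hs, hs] at h
    -- the double count
    have hdouble : ∑ p ∈ Hs, (P p true Finset.univ + P p false Finset.univ) = 1 := by
      calc ∑ p ∈ Hs, (P p true Finset.univ + P p false Finset.univ)
          = ∑ p ∈ Hs, ∑ i ∈ (Finset.univ : Finset (Fin (n + 1))), P p b (Finset.univ.erase i) := by
            refine Finset.sum_congr rfl fun p _ => ?_
            exact (local_count _ (hinj p) (fun j => sgn (vx p.1 p.2 j)) Finset.univ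
              ⟨0, Finset.mem_univ _⟩ b).symm
        _ = ∑ i ∈ (Finset.univ : Finset (Fin (n + 1))), ∑ p ∈ Hs, P p b (Finset.univ.erase i) :=
            Finset.sum_comm
        _ = ∑ p ∈ Hs, P p b (Finset.univ.erase 0) :=
            Finset.sum_eq_single 0 (fun i _ hi => hridge i hi) (fun h => absurd (Finset.mem_univ _) h)
        _ = 1 := hridge0
    -- the other hemisphere
    have hother : ∑ p ∈ (Finset.univ.filter fun p :
        Equiv.Perm (Fin (n + 1)) × (Fin (n + 1) → Bool) => ¬ p.2 0 = true), P p b Finset.univ
        = ∑ p ∈ Hs, P p (!b) Finset.univ := by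
      apply Finset.sum_nbij' (i := fun p => (p.1, fun c => !p.2 c))
        (j := fun p => (p.1, fun c => !p.2 c))
      · intro p hp
        rw [Finset.mem_filter] at hp
        rw [hHs, Finset.mem_filter]
        refine ⟨Finset.mem_univ _, ?_⟩
        simpa using hp.2
      · intro p hp
        rw [hHs, Finset.mem_filter] at hp
        rw [Finset.mem_filter]
        refine ⟨Finset.mem_univ _, ?_⟩
        simpa using hp.2
      · intro p _; simp
      · intro p _; simp
      · intro p _
        simp only [hP]
        unfold ind
        congr 1
        apply propext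
        rw [← PA_not]
        apply PA_congr
        · intro j _
          rw [vx_not, hκ]
        · intro j _
          rw [vx_not, hsgn _ (hvne p j), Bool.not_not]
    rw [← Finset.sum_filter_add_sum_filter_not Finset.univ
      (fun p : Equiv.Perm (Fin (n + 1)) × (Fin (n + 1) → Bool) => p.2 0 = true)]
    show ∑ p ∈ Hs, P p b Finset.univ + ∑ p ∈ (Finset.univ.filter fun p :
        Equiv.Perm (Fin (n + 1)) × (Fin (n + 1) → Bool) => ¬ p.2 0 = true), P p b Finset.univ = 1
    rw [hother, ← Finset.sum_add_distrib, ← hdouble]
    refine Finset.sum_congr rfl fun p _ => ?_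
    cases b
    · rw [Bool.not_false, add_comm]
    · rw [Bool.not_true]

end Global

end Pool.Agent.Helper40.KS
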