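import Mathlib
import Pool.Agent.Helper70.StructureThm
import Pool.Agent.Helper40.LD.Dense

set_option autoImplicit false

namespace Pool.Agent.Helper40.KS

open Finset Pool.Agent.Helper70
open scoped Classical

/-- **Popular colours.**  Suppose every `X` has a set `S X` of `a` vertices of `G`, that for the pairs
`(X, Y) ∈ E` all edges between `S X` and `S Y` are present, and that every `k`-colouring of the `X`s
is constant on some pair of `E`.  If `E` is not too large then Maker wins. -/
theorem makerWins_of_popular {U V : Type} [Fintype V] (G : SimpleGraph V) {b k a a0 : ℕ}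
    (hb : 1 ≤ b) (hk : 1 ≤ k) (ha0 : ∀ t : ℕ, a ≤ k * t → a0 ≤ t) (S : U → Finset V)
    (hS : ∀ X, (S X).card = a) (E : Finset (U × U))
    (hadj : ∀ p ∈ E, ∀ x ∈ S p.1, ∀ y ∈ S p.2, G.Adj x y)
    (hE : ∀ c : U → Fin k, ∃ p ∈ E, c p.1 = c p.2)
    (hcount : (E.card : ℝ) * (k : ℝ) ^ (2 * a) < qq b ^ (a0 * a0)) :
    MakerWins G b (chiGoal (k + 1)) ∅ ∅ := by
  by_contra hlose
  obtain ⟨x, hx0, hx1, hsp⟩ := exists_spread_coloring G (k := k) hb hlose
  have hb0 : (0 : ℝ) < b := by exact_mod_cast hb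
  have hk0 : (1 : ℝ) ≤ k := by exact_mod_cast hk
  have hlog2 : 0 < Real.log 2 := Real.log_pos (by norm_num)
  have hq1 : 1 < qq b := by
    unfold qq
    rw [Real.one_lt_exp_iff]
    positivity
  have hq0 : 0 < qq b := by linarith
  -- popular colours
  have hpop : ∀ (c : V → Fin k) (X : U), ∃ κ : Fin k, a0 ≤ ((S X).filter fun v => c v = κ).card := by
    intro c X
    by_contra hcon
    push Not at hcon
    have h0 : ∀ κ : Fin k, k * ((S X).filter fun v => c v = κ).card < a := by
      intro κ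
      by_contra h
      push Not at h
      exact absurd (ha0 _ h) (not_le.2 (hcon κ))
    have h1 : ∑ κ : Fin k, ((S X).filter fun v => c v = κ).card = a := by
      rw [← Finset.card_eq_sum_card_fiberwise (f := c) (s := S X) (t := Finset.univ)
        (by intro i _; simp), hS]
    have hne : (Finset.univ : Finset (Fin k)).Nonempty := ⟨⟨0, hk⟩, Finset.mem_univ _⟩
    have h2 : ∑ κ : Fin k, k * ((S X).filter fun v => c v = κ).card
        < ∑ _κ : Fin k, a := Finset.sum_lt_sum_of_nonempty hne fun κ _ => h0 κ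
    rw [← Finset.mul_sum, h1, Finset.sum_const, Finset.card_univ, Fintype.card_fin,
      smul_eq_mul] at h2
    exact lt_irrefl _ h2
  choose pc hpc using hpop
  have hub := LD.union_bound x hx0 E (fun _ => True)
    (fun p c => a0 * a0 ≤ (monoX G (S p.1 ∪ S p.2) c).card) (by
      intro c _
      obtain ⟨p, hp, hpp⟩ := hE (pc c)
      refine ⟨p, hp, ?_⟩
      set T1 := (S p.1).filter fun v => c v = pc c p.1 with hT1
      set T2 := (S p.2).filter fun v => c v = pc c p.2 with hT2
      have hsub : (T1 ×ˢ T2).image (fun q : V × V => s(q.1, q.2)) ⊆ monoX G (S p.1 ∪ S p.2) c := by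
        intro e he
        rw [Finset.mem_image] at he
        obtain ⟨⟨u, v⟩, huv, rfl⟩ := he
        rw [Finset.mem_product, hT1, hT2, Finset.mem_filter, Finset.mem_filter] at huv
        obtain ⟨⟨h1, h2⟩, h3, h4⟩ := huv
        rw [mk_mem_monoX]
        exact ⟨⟨hadj p hp u h1 v h3, by rw [h2, h4, hpp]⟩, Finset.mem_union_left _ h1,
          Finset.mem_union_right _ h3⟩
      have hinj : Set.InjOn (fun q : V × V => s(q.1, q.2)) (T1 ×ˢ T2 : Finset (V × V)) := by
        rintro ⟨u, v⟩ huv ⟨u', v'⟩ huv' heq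
        rw [Finset.mem_coe, Finset.mem_product, hT1, hT2, Finset.mem_filter,
          Finset.mem_filter] at huv huv'
        simp only [Sym2.eq_iff] at heq
        rcases heq with ⟨h1, h2⟩ | ⟨h1, h2⟩
        · rw [h1, h2]
        · exfalso
          have h3 : v' ∈ S p.1 := h1 ▸ huv.1.1
          exact (hadj p hp v' h3 v' huv'.2.1).ne rfl
      have h1 := Finset.card_le_card hsub
      rw [Finset.card_image_of_injOn hinj, Finset.card_product] at h1
      exact (Nat.mul_le_mul (hpc c p.1) (hpc c p.2)).trans h1)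
  have htot : ∑ c : V → Fin k with True, x c = 1 := by
    rw [Finset.filter_true_of_mem (fun _ _ => trivial), hx1]
  rw [htot] at hub
  have hbound : ∀ p ∈ E, ∑ c with a0 * a0 ≤ (monoX G (S p.1 ∪ S p.2) c).card, x c
      ≤ (k : ℝ) ^ (2 * a) / qq b ^ (a0 * a0) := by
    intro p _
    rw [le_div_iff₀ (pow_pos hq0 _)]
    have h1 := exp_moment G hq0 x hx0 (by convert hsp) (S p.1 ∪ S p.2)
    have h2 : (S p.1 ∪ S p.2).card ≤ 2 * a := by
      have := Finset.card_union_le (S p.1) (S p.2)
      rw [hS, hS] at this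
      omega
    calc (∑ c with a0 * a0 ≤ (monoX G (S p.1 ∪ S p.2) c).card, x c) * qq b ^ (a0 * a0)
        = ∑ c with a0 * a0 ≤ (monoX G (S p.1 ∪ S p.2) c).card, x c * qq b ^ (a0 * a0) := by
          rw [Finset.sum_mul]
      _ ≤ ∑ c with a0 * a0 ≤ (monoX G (S p.1 ∪ S p.2) c).card,
            x c * qq b ^ (monoX G (S p.1 ∪ S p.2) c).card := by
          apply Finset.sum_le_sum
          intro c hc
          apply mul_le_mul_of_nonneg_left _ (hx0 c)
          exact pow_le_pow_right₀ hq1.le (Finset.mem_filter.1 hc).2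
      _ ≤ ∑ c, x c * qq b ^ (monoX G (S p.1 ∪ S p.2) c).card := by
          apply Finset.sum_le_sum_of_subset_of_nonneg (Finset.filter_subset _ _)
          intro c _ _
          exact mul_nonneg (hx0 c) (pow_nonneg hq0.le _)
      _ ≤ (k : ℝ) ^ (S p.1 ∪ S p.2).card := h1
      _ ≤ (k : ℝ) ^ (2 * a) := pow_le_pow_right₀ hk0 h2
  have h3 : (1 : ℝ) ≤ E.card * ((k : ℝ) ^ (2 * a) / qq b ^ (a0 * a0)) := by
    calc (1 : ℝ) ≤ _ := hub
      _ ≤ ∑ _p ∈ E, ((k : ℝ) ^ (2 * a) / qq b ^ (a0 * a0)) := Finset.sum_le_sum hbound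
      _ = _ := by rw [Finset.sum_const, nsmul_eq_mul]
  rw [← mul_div_assoc, le_div_iff₀ (pow_pos hq0 _), one_mul] at h3
  exact absurd hcount (not_lt.2 h3)

end Pool.Agent.Helper40.KS
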