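import Mathlib
import Pool.Agent.Helper40.KS.Fan

set_option autoImplicit false

namespace Pool.Agent.Helper40.KS

open Finset
open scoped Classical

lemma sz_le {n : ℕ} (x : Fin n → SignType) : sz x ≤ n := by
  unfold sz
  exact (Finset.card_le_univ _).trans (by simp)

lemma sz_neg {n : ℕ} (x : Fin n → SignType) : sz (-x) = sz x := by
  unfold sz
  congr 1
  ext c
  simp only [Finset.mem_filter, Finset.mem_univ, true_and, Pi.neg_apply]
  cases x c <;> decide

lemma vx_mono {n : ℕ} (τ : Equiv.Perm (Fin n)) (s : Fin n → Bool) {i j : Fin n} (hij : i ≤ j) :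
    ∀ c, vx τ s j c ≠ 0 → vx τ s i c = vx τ s j c := by
  intro c hc
  rw [vx_ne_zero] at hc
  unfold vx
  rw [if_pos hc, if_pos (hij.trans hc)]

/-- **The octahedral Tucker lemma.** -/
theorem tucker {n m : ℕ} (lev : (Fin n → SignType) → ℕ) (sgn : (Fin n → SignType) → Bool)
    (hlev : ∀ x, lev (-x) = lev x) (hsgn : ∀ x, x ≠ 0 → sgn (-x) = !sgn x)
    (hcomp : ∀ x y, x ≠ 0 → (∀ c, x c ≠ 0 → y c = x c) → lev x = lev y → sgn x = sgn y)
    (hm : ∀ x, x ≠ 0 → lev x < m) : n ≤ m := by
  set κ : (Fin n → SignType) → ℕ := fun x => lev x * (n + 1) + sz x with hκ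
  have hsz : ∀ x y, κ x = κ y → sz x = sz y := by
    intro x y hxy
    have h1 := congrArg (· % (n + 1)) hxy
    simp only [hκ] at h1
    rw [Nat.mul_comm (lev x), Nat.mul_comm (lev y), Nat.mul_add_mod, Nat.mul_add_mod,
      Nat.mod_eq_of_lt (Nat.lt_succ_of_le (sz_le x)),
      Nat.mod_eq_of_lt (Nat.lt_succ_of_le (sz_le y))] at h1
    exact h1
  have hκlev : ∀ x y, κ x ≤ κ y → lev x ≤ lev y := by
    intro x y hxy
    by_contra hcon
    push Not at hcon
    have h1 : (lev y + 1) * (n + 1) ≤ lev x * (n + 1) := Nat.mul_le_mul_right _ hcon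
    have h2 := sz_le y
    have h3 : κ y < (lev y + 1) * (n + 1) := by
      simp only [hκ]
      rw [Nat.add_mul]
      omega
    have h4 : lev x * (n + 1) ≤ κ x := by simp only [hκ]; omega
    omega
  have hfan := fan n κ sgn (fun x => by simp only [hκ]; rw [hlev, sz_neg]) hsgn hsz true
  have hex : ∃ p : Equiv.Perm (Fin n) × (Fin n → Bool),
      PA (fun j => κ (vx p.1 p.2 j)) (fun j => sgn (vx p.1 p.2 j)) true Finset.univ := by
    by_contra hcon
    push Not at hcon
    rw [Finset.sum_eq_zero (fun p _ => by unfold ind; rw [if_neg (hcon p)])] at hfan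
    exact absurd hfan (by decide)
  obtain ⟨⟨τ, s⟩, hPA⟩ := hex
  simp only at hPA
  have hne : ∀ j, vx τ s j ≠ 0 := by
    intro j h0
    have h1 : vx τ s j (τ.symm j) = 0 := by rw [h0]; rfl
    exact absurd h1 ((vx_ne_zero _ _ _ _).2 (by simp))
  have hKinj : Function.Injective fun j => κ (vx τ s j) := by
    intro i j hij
    have h1 := hsz _ _ hij
    rw [sz_vx, sz_vx] at h1
    ext
    have := i.2
    have := j.2
    omega
  -- vertices of the same level have the same sign
  have hsame : ∀ i j, lev (vx τ s i) = lev (vx τ s j) → sgn (vx τ s i) = sgn (vx τ s j) := by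
    intro i j hij
    rcases le_total i j with h | h
    · exact (hcomp _ _ (hne j) (vx_mono τ s h) hij.symm).symm
    · exact hcomp _ _ (hne i) (vx_mono τ s h) hij
  have key : ∀ i j, κ (vx τ s i) < κ (vx τ s j) → lev (vx τ s i) ≠ lev (vx τ s j) := by
    intro i j hij heq
    obtain ⟨l, hl, hmin⟩ := Finset.exists_min_image
      (Finset.univ.filter fun l => κ (vx τ s i) < κ (vx τ s l)) (fun l => κ (vx τ s l))
      ⟨j, by simpa using hij⟩
    rw [Finset.mem_filter] at hl
    have hlj : κ (vx τ s l) ≤ κ (vx τ s j) := hmin j (by simpa using hij)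
    have hlev' : lev (vx τ s i) = lev (vx τ s l) :=
      le_antisymm (hκlev _ _ hl.2.le) ((hκlev _ _ hlj).trans heq.ge)
    have h1 := hPA i (Finset.mem_univ _)
    have h2 := hPA l (Finset.mem_univ _)
    have h3 : (Finset.univ.filter fun t => κ (vx τ s t) < κ (vx τ s l))
        = insert i (Finset.univ.filter fun t => κ (vx τ s t) < κ (vx τ s i)) := by
      ext t
      simp only [Finset.mem_filter, Finset.mem_univ, true_and, Finset.mem_insert]
      constructor
      · intro ht
        by_contra hcon
        push Not at hcon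
        have h4 : κ (vx τ s i) < κ (vx τ s t) :=
          lt_of_le_of_ne hcon.2 fun h => hcon.1 (hKinj h.symm)
        have := hmin t (by simpa using h4)
        omega
      · rintro (rfl | ht)
        · exact hl.2
        · exact ht.trans hl.2
    have h4 : (Finset.univ.filter fun t => κ (vx τ s t) < κ (vx τ s l)).card
        = (Finset.univ.filter fun t => κ (vx τ s t) < κ (vx τ s i)).card + 1 := by
      rw [h3, Finset.card_insert_of_notMem (by simp)]
    simp only at h1 h2
    rw [h4, Nat.bodd_succ] at h2
    have h5 := hsame i l hlev'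
    rw [h1, h2] at h5
    revert h5
    cases Nat.bodd (Finset.univ.filter fun t => κ (vx τ s t) < κ (vx τ s i)).card <;> simp
  have hinj : Function.Injective fun j : Fin n => (⟨lev (vx τ s j), hm _ (hne j)⟩ : Fin m) := by
    intro i j hij
    simp only [Fin.mk.injEq] at hij
    by_contra hne'
    rcases lt_trichotomy (κ (vx τ s i)) (κ (vx τ s j)) with h | h | h
    · exact key i j h hij
    · exact hne' (hKinj h)
    · exact key j i h hij.symm
  have := Fintype.card_le_of_injective _ hinj
  simpa using this

end Pool.Agent.Helper40.KS
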