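import Mathlib
import Pool.Agent.Helper40.KS.Tucker
import Pool.Agent.Helper40.KS.Defs

set_option autoImplicit false

namespace Pool.Agent.Helper40.KS

open Finset
open scoped Classical

/-- the sign of a Boolean -/
def sg (b : Bool) : SignType := if b then 1 else -1

lemma sg_ne (b : Bool) : sg b ≠ 0 := by cases b <;> decide

lemma sg_inj {b b' : Bool} (h : sg b = sg b') : b = b' := by
  cases b <;> cases b' <;> first | rfl | exact absurd h (by decide)

lemma sg_not (b : Bool) : sg (!b) = -sg b := by cases b <;> decide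

/-- `x` has an alternating subsequence of length `L` starting with the sign `s` -/
def AltS {n : ℕ} (x : Fin n → SignType) (s : Bool) (L : ℕ) : Prop :=
  ∃ f : Fin L → Fin n, StrictMono f ∧ ∀ t, x (f t) = sg (xor s (Nat.bodd t))

lemma AltS.le {n : ℕ} {x : Fin n → SignType} {s : Bool} {L : ℕ} (h : AltS x s L) : L ≤ n := by
  obtain ⟨f, hf, _⟩ := h
  have := Fintype.card_le_of_injective f hf.injective
  simpa using this

lemma AltS.mono {n : ℕ} {x y : Fin n → SignType} {s : Bool} {L : ℕ} (h : AltS x s L)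
    (hxy : ∀ c, x c ≠ 0 → y c = x c) : AltS y s L := by
  obtain ⟨f, hf, hf2⟩ := h
  refine ⟨f, hf, fun t => ?_⟩
  rw [hxy _ (by rw [hf2 t]; exact sg_ne _), hf2 t]

lemma AltS.neg {n : ℕ} {x : Fin n → SignType} {s : Bool} {L : ℕ} (h : AltS x s L) :
    AltS (-x) (!s) L := by
  obtain ⟨f, hf, hf2⟩ := h
  refine ⟨f, hf, fun t => ?_⟩
  rw [Pi.neg_apply, hf2 t, ← sg_not]
  congr 1
  cases s <;> cases Nat.bodd (t : ℕ) <;> rfl

lemma AltS.cons {n : ℕ} {x : Fin n → SignType} {s : Bool} {L : ℕ} {f : Fin (L + 1) → Fin n}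
    (hf : StrictMono f) (hf2 : ∀ t, x (f t) = sg (xor s (Nat.bodd t))) {i : Fin n}
    (hi : x i = sg (!s)) (hlt : i < f 0) : AltS x (!s) (L + 2) := by
  refine ⟨Fin.cons i f, ?_, ?_⟩
  · intro a b hab
    refine Fin.cases (fun b hab => ?_) (fun a b hab => ?_) a b hab
    · refine Fin.cases (fun hab => ?_) (fun b _ => ?_) b hab
      · exact absurd hab (lt_irrefl _)
      · rw [Fin.cons_zero, Fin.cons_succ]
        exact lt_of_lt_of_le hlt (hf.monotone (Fin.zero_le b))
    · refine Fin.cases (fun hab => ?_) (fun b hab => ?_) b hab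
      · exact absurd hab (by simp)
      · rw [Fin.cons_succ, Fin.cons_succ]
        exact hf (by simpa using hab)
  · intro t
    refine Fin.cases ?_ (fun t => ?_) t
    · rw [Fin.cons_zero, hi]
      simp
    · rw [Fin.cons_succ, hf2 t, Fin.val_succ, Nat.bodd_succ]
      congr 1
      cases s <;> cases Nat.bodd (t : ℕ) <;> rfl

lemma AltS.both {n : ℕ} {x : Fin n → SignType} {L : ℕ} (h1 : AltS x true (L + 1))
    (h2 : AltS x false (L + 1)) : ∃ s, AltS x s (L + 2) := by
  obtain ⟨f, hf, hf2⟩ := h1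
  obtain ⟨g, hg, hg2⟩ := h2
  have hf0 : x (f 0) = sg true := by rw [hf2 0]; simp
  have hg0 : x (g 0) = sg false := by rw [hg2 0]; simp
  rcases lt_trichotomy (f 0) (g 0) with h | h | h
  · exact ⟨_, AltS.cons hg hg2 (i := f 0) (by rw [hf0]; rfl) h⟩
  · rw [h, hg0] at hf0
    exact absurd hf0 (by decide)
  · exact ⟨_, AltS.cons hf hf2 (i := g 0) (by rw [hg0]; rfl) h⟩

/-- the length of the longest alternating subsequence -/
noncomputable def altn {n : ℕ} (x : Fin n → SignType) : ℕ :=
  Nat.findGreatest (fun L => ∃ s, AltS x s L) n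

lemma altn_spec {n : ℕ} (x : Fin n → SignType) : ∃ s, AltS x s (altn x) := by
  unfold altn
  refine Nat.findGreatest_spec (P := fun L => ∃ s, AltS x s L) (m := 0) (Nat.zero_le n) ?_
  exact ⟨true, Fin.elim0, fun a => a.elim0, fun t => t.elim0⟩

lemma le_altn {n : ℕ} {x : Fin n → SignType} {s : Bool} {L : ℕ} (h : AltS x s L) : L ≤ altn x :=
  Nat.le_findGreatest h.le ⟨s, h⟩

lemma altn_pos {n : ℕ} {x : Fin n → SignType} (hx : x ≠ 0) : 1 ≤ altn x := by
  obtain ⟨c, hc⟩ : ∃ c, x c ≠ 0 := by
    by_contra hcon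
    push Not at hcon
    exact hx (funext hcon)
  have h1 : ∃ s, x c = sg s := by
    rcases h : x c with _ | _ | _
    · exact absurd h hc
    · exact ⟨false, rfl⟩
    · exact ⟨true, rfl⟩
  obtain ⟨s, hs⟩ := h1
  refine le_altn (s := s) ⟨fun _ => c, ?_, ?_⟩
  · intro a b hab
    exact absurd hab (by rw [Subsingleton.elim a b]; exact lt_irrefl _)
  · intro t
    rw [hs]
    have : (t : ℕ) = 0 := by omega
    rw [this]
    simp

lemma altn_mono {n : ℕ} {x y : Fin n → SignType} (hxy : ∀ c, x c ≠ 0 → y c = x c) :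
    altn x ≤ altn y := by
  obtain ⟨s, hs⟩ := altn_spec x
  exact le_altn (hs.mono hxy)

lemma altn_neg {n : ℕ} (x : Fin n → SignType) : altn (-x) = altn x := by
  have h : ∀ x : Fin n → SignType, altn x ≤ altn (-x) := by
    intro x
    obtain ⟨s, hs⟩ := altn_spec x
    exact le_altn hs.neg
  refine le_antisymm ?_ (h x)
  have := h (-x)
  rwa [neg_neg] at this

lemma altn_unique {n : ℕ} {x : Fin n → SignType} (hx : x ≠ 0) :
    ¬ (AltS x true (altn x) ∧ AltS x false (altn x)) := by
  rintro ⟨h1, h2⟩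
  obtain ⟨L, hL⟩ : ∃ L, altn x = L + 1 := ⟨altn x - 1, by have := altn_pos hx; omega⟩
  rw [hL] at h1 h2
  obtain ⟨s, hs⟩ := AltS.both h1 h2
  have := le_altn hs
  omega

/-- a stable set inside the positions of one sign -/
lemma exists_stable {n M : ℕ} {x : Fin n → SignType} {s : Bool} {L : ℕ} (h : AltS x s L)
    (hL : 2 * M ≤ L) : ∃ X : Finset (Fin n), Stable X ∧ X.card = M ∧ ∀ i ∈ X, x i = sg s := by
  obtain ⟨f, hf, hf2⟩ := h
  let g : Fin M → Fin n := fun i => f ⟨2 * i, by have := i.2; omega⟩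
  have hg : Function.Injective g := by
    intro i j hij
    have h1 := hf.injective hij
    simp only [Fin.mk.injEq] at h1
    ext
    omega
  refine ⟨Finset.univ.image g, ?_, ?_, ?_⟩
  · intro a ha b hb
    rw [Finset.mem_image] at ha hb
    obtain ⟨i, _, rfl⟩ := ha
    obtain ⟨j, _, rfl⟩ := hb
    have hi := i.2
    have hj := j.2
    have h1 : g i < f ⟨2 * i + 1, by omega⟩ := hf (by simp [Fin.lt_def])
    have h2 : ((f ⟨2 * i + 1, by omega⟩ : Fin n) : ℕ) < n := (f ⟨2 * i + 1, by omega⟩).2
    have h1' : (g i : ℕ) < (f ⟨2 * i + 1, by omega⟩ : ℕ) := h1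
    rw [Nat.mod_eq_of_lt (by omega)]
    intro heq
    rcases le_or_gt (j : ℕ) i with h3 | h3
    · have h4 : g j ≤ g i := hf.monotone (by simp only [Fin.le_def]; omega)
      have h4' : (g j : ℕ) ≤ g i := h4
      omega
    · have h4 : f ⟨2 * i + 1, by omega⟩ < g j := hf (by simp only [Fin.lt_def]; omega)
      have h4' : ((f ⟨2 * i + 1, by omega⟩ : Fin n) : ℕ) < g j := h4
      omega
  · rw [Finset.card_image_of_injective _ hg]
    simp
  · intro i hi
    rw [Finset.mem_image] at hi
    obtain ⟨j, _, rfl⟩ := hi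
    show x (f _) = _
    rw [hf2]
    simp

/-- **Schrijver's theorem** (up to one): the cyclically stable `M`-subsets of an `n`-set with
`n ≥ 2 M + k` cannot be coloured with `k` colours so that disjoint sets get different colours. -/
theorem schrijver {n M k : ℕ} (hM : 1 ≤ M) (hn : 2 * M + k ≤ n) (c : Finset (Fin n) → Fin k) :
    ∃ X Y, Stable X ∧ Stable Y ∧ X.card = M ∧ Y.card = M ∧ Disjoint X Y ∧ c X = c Y := by
  by_contra hcon
  push Not at hcon
  -- the colours seen in the positions of the sign `b`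
  set Q : (Fin n → SignType) → Bool → ℕ → Prop := fun x b κ =>
    ∃ X, Stable X ∧ X.card = M ∧ (∀ i ∈ X, x i = sg b) ∧ (c X : ℕ) = κ with hQ
  have hQk : ∀ x b κ, Q x b κ → κ < k := by
    rintro x b κ ⟨X, _, _, _, h⟩
    rw [← h]
    exact (c X).2
  have hQnot : ∀ x κ, ¬ (Q x true κ ∧ Q x false κ) := by
    rintro x κ ⟨⟨X, h1, h2, h3, h4⟩, ⟨Y, h5, h6, h7, h8⟩⟩
    refine hcon X Y h1 h5 h2 h6 ?_ (Fin.ext (h4.trans h8.symm))
    rw [Finset.disjoint_left]
    intro i hi hi'
    have := (h3 i hi).symm.trans (h7 i hi')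
    exact absurd this (by decide)
  have hQneg : ∀ x b κ, Q (-x) b κ ↔ Q x (!b) κ := by
    intro x b κ
    have h : ∀ x b, Q x b κ → Q (-x) (!b) κ := by
      rintro x b ⟨X, h1, h2, h3, h4⟩
      refine ⟨X, h1, h2, fun i hi => ?_, h4⟩
      rw [Pi.neg_apply, h3 i hi, sg_not]
    constructor
    · intro h1
      have := h _ _ h1
      rwa [neg_neg] at this
    · intro h1
      have := h _ _ h1
      rwa [Bool.not_not] at this
  have hQmono : ∀ x y b κ, (∀ c, x c ≠ 0 → y c = x c) → Q x b κ → Q y b κ := by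
    rintro x y b κ hxy ⟨X, h1, h2, h3, h4⟩
    refine ⟨X, h1, h2, fun i hi => ?_, h4⟩
    rw [hxy i (by rw [h3 i hi]; exact sg_ne _), h3 i hi]
  set mc : (Fin n → SignType) → ℕ := fun x => sInf {κ | ∃ b, Q x b κ} with hmc
  have hmc_spec : ∀ x, 2 * M ≤ altn x → ∃ b, Q x b (mc x) := by
    intro x hx
    have hne : {κ | ∃ b, Q x b κ}.Nonempty := by
      obtain ⟨s, hs⟩ := altn_spec x
      obtain ⟨X, h1, h2, h3⟩ := exists_stable hs hx
      exact ⟨_, s, X, h1, h2, h3, rfl⟩
    exact Nat.sInf_mem hne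
  have hmc_neg : ∀ x, mc (-x) = mc x := by
    intro x
    simp only [hmc]
    congr 1
    ext κ
    simp only [Set.mem_setOf_eq, hQneg]
    constructor
    · rintro ⟨b, hb⟩; exact ⟨_, hb⟩
    · rintro ⟨b, hb⟩; exact ⟨!b, by rwa [Bool.not_not]⟩
  set lev : (Fin n → SignType) → ℕ := fun x =>
    if altn x < 2 * M then altn x - 1 else 2 * M - 1 + mc x with hlev
  set sgn : (Fin n → SignType) → Bool := fun x =>
    if altn x < 2 * M then decide (AltS x true (altn x)) else decide (Q x true (mc x)) with hsgn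
  have htucker := tucker (n := n) (m := 2 * M - 1 + k) lev sgn ?_ ?_ ?_ ?_
  · omega
  · intro x
    simp only [hlev]
    rw [altn_neg, hmc_neg]
  · intro x hx
    simp only [hsgn]
    rw [altn_neg]
    by_cases h : altn x < 2 * M
    · rw [if_pos h, if_pos h]
      have h1 : AltS (-x) true (altn x) ↔ AltS x false (altn x) := by
        constructor
        · intro h; have := h.neg; rwa [neg_neg] at this
        · intro h; exact h.neg
      have h2 := altn_unique hx
      obtain ⟨s, hs⟩ := altn_spec x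
      rw [decide_eq_decide.2 h1]
      cases s
      · rw [decide_eq_true hs, decide_eq_false fun h => h2 ⟨h, hs⟩]; rfl
      · rw [decide_eq_true hs, decide_eq_false fun h => h2 ⟨hs, h⟩]; rfl
    · rw [if_neg h, if_neg h, hmc_neg]
      obtain ⟨b, hb⟩ := hmc_spec x (not_lt.1 h)
      have h5 : Q (-x) true (mc x) ↔ Q x false (mc x) := hQneg x true (mc x)
      rw [decide_eq_decide.2 h5]
      cases b
      · rw [decide_eq_true hb, decide_eq_false fun h => hQnot x _ ⟨h, hb⟩]; rfl
      · rw [decide_eq_true hb, decide_eq_false fun h => hQnot x _ ⟨hb, h⟩]; rfl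
  · intro x y hx hxy hl
    have hy : y ≠ 0 := by
      intro h0
      apply hx
      funext c
      by_contra hc
      have := hxy c hc
      rw [h0] at this
      exact hc this.symm
    have hm := altn_mono hxy
    have hxp := altn_pos hx
    have hyp := altn_pos hy
    simp only [hlev] at hl
    simp only [hsgn]
    by_cases h1 : altn x < 2 * M
    · by_cases h2 : altn y < 2 * M
      · rw [if_pos h1, if_pos h2] at hl
        have h3 : altn x = altn y := by omega
        rw [if_pos h1, if_pos h2, ← h3]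
        apply decide_eq_decide.2
        constructor
        · intro h; exact h.mono hxy
        · intro h
          obtain ⟨s, hs⟩ := altn_spec x
          cases s
          · have h4 := hs.mono hxy
            rw [h3] at h h4
            exact absurd ⟨h, h4⟩ (altn_unique hy)
          · exact hs
      · rw [if_pos h1, if_neg h2] at hl
        omega
    · by_cases h2 : altn y < 2 * M
      · omega
      · rw [if_neg h1, if_neg h2] at hl
        have h3 : mc x = mc y := by omega
        rw [if_neg h1, if_neg h2, ← h3]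
        apply decide_eq_decide.2
        constructor
        · intro h; exact hQmono _ _ _ _ hxy h
        · intro h
          obtain ⟨b, hb⟩ := hmc_spec x (not_lt.1 h1)
          cases b
          · exact absurd ⟨h, hQmono _ _ _ _ hxy hb⟩ (hQnot y _)
          · exact hb
  · intro x hx
    simp only [hlev]
    split_ifs with h
    · have := altn_pos hx
      omega
    · obtain ⟨b, hb⟩ := hmc_spec x (not_lt.1 h)
      have := hQk _ _ _ hb
      omega

end Pool.Agent.Helper40.KS
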