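import Mathlib
import Pool.Agent.Helper40.KS.Schrijver
import Pool.Agent.Helper40.KS.Pop

set_option autoImplicit false

namespace Pool.Agent.Helper40.KS

open Finset Pool.Agent.Helper70
open scoped Classical

lemma mul_le_choose : ∀ m j : ℕ, m * j + 1 ≤ (m + j).choose m := by
  intro m
  induction m with
  | zero => intro j; simp
  | succ m ihm =>
    intro j
    induction j with
    | zero => simp
    | succ j ihj =>
      have h1 : (m + 1 + (j + 1)).choose (m + 1) = (m + (j + 1)).choose m + (m + 1 + j).choose (m + 1) := by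
        rw [show m + 1 + (j + 1) = (m + j + 1) + 1 from by ring, Nat.choose_succ_succ]
        congr 2
        ring
      rw [h1]
      have h2 := ihm (j + 1)
      nlinarith

lemma stable_map {n' n : ℕ} (h : n' ≤ n) {X : Finset (Fin n')} (hX : Stable X) :
    Stable (X.map (Fin.castLEEmb h)) := by
  intro i hi j hj
  rw [Finset.mem_map] at hi hj
  obtain ⟨i, hi, rfl⟩ := hi
  obtain ⟨j, hj, rfl⟩ := hj
  have h1 := hX i hi j hj
  have hi2 := i.2
  have hj2 := j.2
  simp only [Fin.castLEEmb_apply, Fin.val_castLE]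
  rcases Nat.lt_or_ge ((i : ℕ) + 1) n' with h3 | h3
  · rw [Nat.mod_eq_of_lt h3] at h1
    rw [Nat.mod_eq_of_lt (by omega)]
    exact h1
  · have h4 : (i : ℕ) + 1 = n' := by omega
    rw [h4] at h1 ⊢
    rw [Nat.mod_self] at h1
    rcases Nat.lt_or_ge n' n with h5 | h5
    · rw [Nat.mod_eq_of_lt h5]
      omega
    · have h6 : n' = n := by omega
      subst h6
      rw [Nat.mod_self]
      exact h1

lemma stable_subset {n : ℕ} {X Y : Finset (Fin n)} (hY : Stable Y) (h : X ⊆ Y) : Stable X :=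
  fun i hi j hj => hY i (h hi) j (h hj)

/-- Maker wins on every graph containing a Schrijver graph of large chromatic number. -/
theorem makerWins_schrijver {b k n m : ℕ} (hb : 1 ≤ b) (hk : 1 ≤ k) (hm : 1 ≤ m)
    (hn : 2 * m + 2 * (b * k ^ 2 * (10 + 2 * Nat.clog 2 k) + 1) + k ≤ n) {V : Type} [Fintype V]
    (G : SimpleGraph V) (φ : {X : Finset (Fin n) // X.card = m ∧ Stable X} → V)
    (hinj : Function.Injective φ)
    (hφ : ∀ X Y : {X : Finset (Fin n) // X.card = m ∧ Stable X}, Disjoint X.1 Y.1 →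
      G.Adj (φ X) (φ Y)) : MakerWins G b (chiGoal (k + 1)) ∅ ∅ := by
  set j : ℕ := b * k ^ 2 * (10 + 2 * Nat.clog 2 k) + 1 with hj
  set n' : ℕ := 2 * (m + j) + k with hn'
  have hn'n : n' ≤ n := by omega
  set a : ℕ := m * j with ha
  have hj1 : 1 ≤ j := by omega
  have hbk : 1 ≤ b * k ^ 2 := Nat.mul_pos hb (pow_pos hk 2)
  have hkj : k ≤ j := by
    have h1 : k ≤ b * k ^ 2 := by nlinarith
    have h2 : b * k ^ 2 * 1 ≤ b * k ^ 2 * (10 + 2 * Nat.clog 2 k) :=
      Nat.mul_le_mul_left _ (by omega)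
    omega
  have hja : j ≤ a := by rw [ha]; exact Nat.le_mul_of_pos_left _ hm
  have hma : m ≤ a := by rw [ha]; exact Nat.le_mul_of_pos_right _ hj1
  -- the vertices of the auxiliary graph
  let U : Type := {X : Finset (Fin n') // X.card = m + j ∧ Stable X}
  have hfam : ∀ X : U, ∃ T : Finset V, T.card = a ∧ ∀ v ∈ T, ∃ Z : Finset (Fin n'),
      ∃ hZ : (Z.map (Fin.castLEEmb hn'n)).card = m ∧ Stable (Z.map (Fin.castLEEmb hn'n)),
        Z ⊆ X.1 ∧ v = φ ⟨Z.map (Fin.castLEEmb hn'n), hZ⟩ := by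
    intro X
    have hgood : ∀ Z ∈ X.1.powersetCard m, (Z.map (Fin.castLEEmb hn'n)).card = m ∧
        Stable (Z.map (Fin.castLEEmb hn'n)) := by
      intro Z hZ
      rw [Finset.mem_powersetCard] at hZ
      exact ⟨by rw [Finset.card_map]; exact hZ.2,
        stable_map hn'n (stable_subset X.2.2 hZ.1)⟩
    set T0 : Finset V := (X.1.powersetCard m).attach.image
      (fun Z => φ ⟨Z.1.map (Fin.castLEEmb hn'n), hgood Z.1 Z.2⟩) with hT0
    have hT0card : T0.card = (m + j).choose m := by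
      rw [hT0, Finset.card_image_of_injective, Finset.card_attach, Finset.card_powersetCard, X.2.1]
      intro Z Z' h
      have h1 := hinj h
      simp only [Subtype.mk.injEq] at h1
      exact Subtype.ext (Finset.map_injective _ h1)
    obtain ⟨T, hT, hTc⟩ := Finset.exists_subset_card_eq (s := T0) (n := a) (by
      rw [hT0card]
      have := mul_le_choose m j
      omega)
    refine ⟨T, hTc, fun v hv => ?_⟩
    have hv0 := hT hv
    rw [hT0, Finset.mem_image] at hv0
    obtain ⟨Z, _, rfl⟩ := hv0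
    exact ⟨Z.1, hgood Z.1 Z.2, (Finset.mem_powersetCard.1 Z.2).1, rfl⟩
  choose S hS1 hS2 using hfam
  set a0 : ℕ := ⌈(a : ℝ) / k⌉₊ with ha0
  have hk0 : (1 : ℝ) ≤ k := by exact_mod_cast hk
  have hb0 : (1 : ℝ) ≤ b := by exact_mod_cast hb
  have ha0t : ∀ t : ℕ, a ≤ k * t → a0 ≤ t := by
    intro t ht
    rw [ha0, Nat.ceil_le, div_le_iff₀ (by linarith)]
    have : (a : ℝ) ≤ k * t := by exact_mod_cast ht
    linarith
  have haa0 : a ≤ k * a0 := by
    have h1 : (a : ℝ) / k ≤ a0 := Nat.le_ceil _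
    rw [div_le_iff₀ (by linarith)] at h1
    have : (a : ℝ) ≤ ((k * a0 : ℕ) : ℝ) := by push_cast; linarith
    exact_mod_cast this
  set E : Finset (U × U) := Finset.univ.filter fun p => Disjoint p.1.1 p.2.1 with hEdef
  apply makerWins_of_popular G hb hk ha0t S hS1 E
  · intro p hp x hx y hy
    rw [hEdef, Finset.mem_filter] at hp
    obtain ⟨Z, hZ, hZX, rfl⟩ := hS2 p.1 x hx
    obtain ⟨Z', hZ', hZY, rfl⟩ := hS2 p.2 y hy
    apply hφ
    rw [Finset.disjoint_map]
    exact Finset.disjoint_of_subset_left hZX (Finset.disjoint_of_subset_right hZY hp.2)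
  · intro c
    obtain ⟨X, Y, h1, h2, h3, h4, h5, h6⟩ := schrijver (n := n') (M := m + j) (k := k) (by omega)
      (by omega) (fun X => if h : X.card = m + j ∧ Stable X then c ⟨X, h⟩ else ⟨0, hk⟩)
    rw [dif_pos ⟨h3, h1⟩, dif_pos ⟨h4, h2⟩] at h6
    refine ⟨(⟨X, h3, h1⟩, ⟨Y, h4, h2⟩), ?_, h6⟩
    rw [hEdef, Finset.mem_filter]
    exact ⟨Finset.mem_univ _, h5⟩
  · -- counting
    have hUcard : Fintype.card U ≤ 2 ^ n' := by
      refine (Fintype.card_subtype_le _).trans ?_
      simp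
    have hEcard : E.card ≤ 2 ^ n' * 2 ^ n' := by
      refine (Finset.card_le_univ _).trans ?_
      rw [Fintype.card_prod]
      exact Nat.mul_le_mul hUcard hUcard
    have hkc : k ≤ 2 ^ Nat.clog 2 k := Nat.le_pow_clog (by norm_num) k
    have hN : E.card * k ^ (2 * a) ≤ 2 ^ (2 * n' + 2 * a * Nat.clog 2 k) := by
      calc E.card * k ^ (2 * a) ≤ (2 ^ n' * 2 ^ n') * (2 ^ Nat.clog 2 k) ^ (2 * a) :=
            Nat.mul_le_mul hEcard (Nat.pow_le_pow_left hkc _)
        _ = 2 ^ (2 * n' + 2 * a * Nat.clog 2 k) := by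
            rw [← pow_add, ← pow_mul, ← pow_add]
            congr 1
            ring
    have hkey : b * (2 * n' + 2 * a * Nat.clog 2 k) < a0 * a0 := by
      have h1 : 2 * n' + 2 * a * Nat.clog 2 k ≤ a * (10 + 2 * Nat.clog 2 k) := by
        rw [hn']
        nlinarith
      have h2 : b * k ^ 2 * (10 + 2 * Nat.clog 2 k) < a := by omega
      have h3 : k ^ 2 * (b * (2 * n' + 2 * a * Nat.clog 2 k)) < k ^ 2 * (a0 * a0) := by
        calc k ^ 2 * (b * (2 * n' + 2 * a * Nat.clog 2 k))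
            ≤ k ^ 2 * (b * (a * (10 + 2 * Nat.clog 2 k))) :=
              Nat.mul_le_mul_left _ (Nat.mul_le_mul_left _ h1)
          _ = a * (b * k ^ 2 * (10 + 2 * Nat.clog 2 k)) := by ring
          _ < a * a := Nat.mul_lt_mul_of_pos_left h2 (by omega)
          _ ≤ (k * a0) * (k * a0) := Nat.mul_le_mul haa0 haa0
          _ = k ^ 2 * (a0 * a0) := by ring
      exact Nat.lt_of_mul_lt_mul_left h3
    have hlog2 : 0 < Real.log 2 := Real.log_pos (by norm_num)
    calc (E.card : ℝ) * (k : ℝ) ^ (2 * a) = ((E.card * k ^ (2 * a) : ℕ) : ℝ) := by push_cast; ring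
      _ ≤ ((2 ^ (2 * n' + 2 * a * Nat.clog 2 k) : ℕ) : ℝ) := by exact_mod_cast hN
      _ = Real.exp (((2 * n' + 2 * a * Nat.clog 2 k : ℕ) : ℝ) * Real.log 2) := by
          rw [Real.exp_nat_mul, Real.exp_log (by norm_num)]
          push_cast
          ring
      _ < Real.exp (((a0 * a0 : ℕ) : ℝ) * (Real.log 2 / b)) := by
          rw [Real.exp_lt_exp]
          have h4 : (b : ℝ) * ((2 * n' + 2 * a * Nat.clog 2 k : ℕ) : ℝ) < ((a0 * a0 : ℕ) : ℝ) := by
            exact_mod_cast hkey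
          rw [← mul_div_assoc, lt_div_iff₀ (by linarith)]
          nlinarith
      _ = qq b ^ (a0 * a0) := by unfold qq; rw [← Real.exp_nat_mul]

end Pool.Agent.Helper40.KS
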