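import Pool.Agent.Helper72.KS.SCX
import Pool.Agent.Helper40.KS.SCC

set_option autoImplicit false

open Finset

namespace Pool.Agent.Helper59.KS

/-- BLOCK SCC -/
theorem sc_color {C V₁ V₂ : Type} [Fintype C] [DecidableEq C] [Fintype V₁] [DecidableEq V₁]
    [Fintype V₂] [DecidableEq V₂] (f₁ : C → V₁) (f₂ : C → V₂)
    (p₁ : Finset V₁ → ℤ) (p₂ : Finset V₂ → ℤ) (k : ℕ) (hk : 1 ≤ k)
    (h₁ : ISuper p₁) (h₂ : ISuper p₂)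
    (hk₁ : ∀ X, X.Nonempty → p₁ X ≤ k) (hk₂ : ∀ X, X.Nonempty → p₂ X ≤ k)
    (hc₁ : ∀ X, X.Nonempty → p₁ X ≤ (univ.filter fun c => f₁ c ∈ X).card)
    (hc₂ : ∀ X, X.Nonempty → p₂ X ≤ (univ.filter fun c => f₂ c ∈ X).card) :
    ∃ χ : C → Fin k,
      (∀ X, X.Nonempty → p₁ X ≤ ((univ.filter fun c => f₁ c ∈ X).image χ).card) ∧
      (∀ X, X.Nonempty → p₂ X ≤ ((univ.filter fun c => f₂ c ∈ X).image χ).card) := by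
  obtain ⟨k, rfl⟩ : ∃ j, k = j + 1 := ⟨k - 1, by omega⟩
  refine sc_color_of_extract (V₁ := V₁) (V₂ := V₂) ?_ k C f₁ f₂ p₁ p₂ h₁ h₂ hk₁ hk₂ hc₁ hc₂
  intro C _ _ k hk f₁ f₂ p₁ p₂ h₁ h₂ hk₁ hk₂ hc₁ hc₂
  exact sc_extract f₁ f₂ p₁ p₂ k hk h₁ h₂ hk₁ hk₂ hc₁ hc₂

end Pool.Agent.Helper59.KS
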