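import Pool.Agent.Helper1.KS.MF

set_option autoImplicit false

open Finset

namespace Pool.Agent.Helper59.KS

/-- Block XY, with the consequence of the median order (MF3) as a hypothesis. -/
theorem far_in_of_half {n : ℕ} (T : Fin n → Fin n → Prop) (k : ℕ)
    (q m : ℕ) (hq : 4 * m + 160 * k + 2 * k + m ≤ q) (u : Fin n) (hu : q < u.val + m)
    (hu' : u.val < q + m)
    (hh : u.val - 0 ≤ 2 * (arcs T (univ.filter fun i : Fin n => 0 ≤ i.val ∧ i < u) {u}).card) :
    ∃ x : Fin k → Fin n, Function.Injective x ∧ ∀ j, (x j).val + m + 80 * k ≤ q ∧ T (x j) u := by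
  classical
  set F : Finset (Fin n) := univ.filter fun i => i.val + m + 80 * k ≤ q ∧ T i u with hF
  set N : Finset (Fin n) := univ.filter fun i => q < i.val + m + 80 * k ∧ i < u with hN
  have h1 : (arcs T (univ.filter fun i : Fin n => 0 ≤ i.val ∧ i < u) {u}).card ≤
      F.card + N.card := by
    refine le_trans (card_le_card (t := (F ∪ N).image fun i => (i, u)) ?_)
      (card_image_le.trans (card_union_le _ _))
    rintro ⟨i, v⟩ hp
    rw [mem_arcs] at hp
    simp only [mem_filter, mem_univ, true_and, mem_singleton] at hp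
    obtain ⟨⟨_, h2⟩, rfl, h3⟩ := hp
    rw [mem_image]
    refine ⟨i, ?_, rfl⟩
    rw [mem_union, hF, hN]
    simp only [mem_filter, mem_univ, true_and]
    by_cases h4 : i.val + m + 80 * k ≤ q
    · exact Or.inl ⟨h4, h3⟩
    · exact Or.inr ⟨by omega, h2⟩
  have h2 : N.card ≤ u.val - (q - m - 80 * k + 1) := by
    have h3 : (N.map Fin.valEmbedding) ⊆ Finset.Ico (q - m - 80 * k + 1) u.val := by
      intro i hi
      rw [mem_map] at hi
      obtain ⟨j, hj, rfl⟩ := hi
      rw [hN] at hj
      simp only [mem_filter, mem_univ, true_and] at hj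
      have := Fin.lt_def.1 hj.2
      rw [mem_Ico]
      constructor
      · show q - m - 80 * k + 1 ≤ j.val
        omega
      · exact this
    have h4 := card_le_card h3
    rw [card_map, Nat.card_Ico] at h4
    exact h4
  have h3 : k ≤ F.card := by omega
  obtain ⟨G, hGF, hG⟩ := exists_subset_card_eq h3
  refine ⟨fun j => ((G.equivFinOfCardEq hG).symm j).1, ?_, fun j => ?_⟩
  · intro a b hab
    exact (G.equivFinOfCardEq hG).symm.injective (Subtype.ext hab)
  · have h4 := hGF ((G.equivFinOfCardEq hG).symm j).2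
    rw [hF] at h4
    simpa using h4

/-- BLOCK XY : distinct far in-neighbours. -/
theorem far_in {n : ℕ} (T : Fin n → Fin n → Prop) (hM : Median T) (k : ℕ)
    (q m : ℕ) (hq : 4 * m + 160 * k + 2 * k + m ≤ q) (u : Fin n) (hu : q < u.val + m)
    (hu' : u.val < q + m) :
    ∃ x : Fin k → Fin n, Function.Injective x ∧ ∀ j, (x j).val + m + 80 * k ≤ q ∧ T (x j) u :=
  far_in_of_half T k q m hq u hu hu' (hM.in_half u 0)

end Pool.Agent.Helper59.KS
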